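import Mathlib

set_option autoImplicit false

namespace Pool.Agent.W729.LR

open Finset

/-- dimension of a product of subspaces -/
theorem finrank_mul_le {K A : Type} [Field K] [CommRing A] [Algebra K A] [FiniteDimensional K A]
    (M N : Submodule K A) :
    Module.finrank K (M * N : Submodule K A) ≤ Module.finrank K M * Module.finrank K N := by
  rw [← Submodule.mulMap_range M N, ← Module.finrank_tensorProduct]
  exact LinearMap.finrank_range_le _

theorem finrank_pow_le {K A : Type} [Field K] [CommRing A] [Algebra K A] [FiniteDimensional K A]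
    (M : Submodule K A) (s : ℕ) (hA : Module.finrank K (1 : Submodule K A) ≤ 1) :
    Module.finrank K (M ^ s : Submodule K A) ≤ Module.finrank K M ^ s := by
  induction s with
  | zero =>
    have h := congrArg (fun N : Submodule K A => Module.finrank K N) (pow_zero M)
    rw [pow_zero]
    exact h.trans_le hA
  | succ s ih =>
    rw [pow_succ, pow_succ]
    exact (finrank_mul_le _ _).trans (Nat.mul_le_mul_right _ ih)

theorem prod_mem {K A ι : Type} [Field K] [CommRing A] [Algebra K A] (U : Submodule K A)
    (g : ι → A) (hg : ∀ i, g i ∈ U) (J : Finset ι) :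
    (∏ j ∈ J, g j) ∈ U ^ J.card := by
  classical
  induction J using Finset.induction_on with
  | empty =>
    rw [prod_empty, card_empty, pow_zero]
    exact Submodule.one_le.mp le_rfl
  | insert d D hd ih =>
    rw [prod_insert hd, card_insert_of_notMem hd, pow_succ']
    exact Submodule.mul_mem_mul (hg d) ih

/-- a triangular system of functions in a subspace -/
theorem card_le {K V : Type} [Field K] [Fintype V] [DecidableEq V] (W : Submodule K (V → K))
    (T : Finset V) (pos : V → ℕ) (hpos : ∀ u ∈ T, ∀ v ∈ T, pos u = pos v → u = v)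
    (f : V → V → K) (hW : ∀ u ∈ T, f u ∈ W) (hd : ∀ u ∈ T, f u u ≠ 0)
    (h0 : ∀ u ∈ T, ∀ v ∈ T, pos v < pos u → f u v = 0) :
    T.card ≤ Module.finrank K W := by
  classical
  have hli : LinearIndependent K (fun u : T => (⟨f u, hW u u.2⟩ : W)) := by
    apply LinearIndependent.of_comp W.subtype
    rw [Fintype.linearIndependent_iff]
    intro c hc
    by_contra hne
    push Not at hne
    obtain ⟨i, hi⟩ := hne
    obtain ⟨u, hu, hmin⟩ := Finset.exists_min_image (univ.filter (fun u : T => c u ≠ 0))
      (fun u : T => pos u) ⟨i, by simpa using hi⟩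
    have hcu : c u ≠ 0 := by simpa using hu
    have h2 := congrFun hc (u : V)
    simp only [Function.comp_apply, Submodule.subtype_apply, Finset.sum_apply, Pi.smul_apply,
      smul_eq_mul, Pi.zero_apply] at h2
    rw [Finset.sum_eq_single u] at h2
    · exact mul_ne_zero hcu (hd u u.2) h2
    · intro v _ hv
      by_cases hcv : c v = 0
      · rw [hcv, zero_mul]
      · have h3 : pos u ≤ pos v := hmin v (by simpa using hcv)
        have h4 : pos (u : V) ≠ pos (v : V) := fun h => hv (Subtype.ext (hpos v v.2 u u.2 h.symm))
        rw [h0 v v.2 u u.2 (lt_of_le_of_ne h3 h4), mul_zero]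
    · intro h; exact absurd (mem_univ _) h
  have := hli.fintype_card_le_finrank
  simpa using this


/-- the dimension of the scalars -/
theorem finrank_one_le (K V : Type) [Field K] [Fintype V] :
    Module.finrank K (1 : Submodule K (V → K)) ≤ 1 := by
  rw [Submodule.one_eq_span]
  exact (finrank_span_le_card _).trans (by simp)

/-- **Covering by hyperplanes.** -/
theorem class_bound {K V : Type} [Field K] [Fintype V] [DecidableEq V] (G : SimpleGraph V)
    [DecidableRel G.Adj] (T : Finset V) (pos : V → ℕ)
    (hpos : ∀ u ∈ T, ∀ v ∈ T, pos u = pos v → u = v) (s : ℕ) (w : V → Fin s → V → K)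
    (hw : ∀ u ∈ T, ∀ v ∈ T, pos v < pos u → ∃ j : Fin s,
      ∑ x ∈ symmDiff (G.neighborFinset u) (G.neighborFinset v), w u j x = 1) :
    T.card ≤ ((G.adjMatrix K).rank + 1) ^ s := by
  classical
  set A := G.adjMatrix K with hA
  set U : Submodule K (V → K) := Submodule.span K {1} ⊔ LinearMap.range A.mulVecLin with hU
  have h1 : (1 : V → K) ∈ U := Submodule.mem_sup_left (Submodule.mem_span_singleton_self _)
  have hUr : Module.finrank K U ≤ A.rank + 1 := by
    have h := Submodule.finrank_add_le_finrank_add_finrank (Submodule.span K {(1 : V → K)})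
      (LinearMap.range A.mulVecLin)
    have h2 : Module.finrank K (Submodule.span K {(1 : V → K)}) ≤ 1 :=
      (finrank_span_le_card _).trans (by simp)
    have h3 : A.rank = Module.finrank K (LinearMap.range A.mulVecLin) := rfl
    rw [← hU] at h
    omega
  let g : V → Fin s → V → K := fun u j v =>
    ∑ x ∈ symmDiff (G.neighborFinset u) (G.neighborFinset v), w u j x
  have hgU : ∀ u j, g u j ∈ U := by
    intro u j
    have e : g u j = (∑ x, w u j x * A u x) • (1 : V → K) +
        A.mulVecLin (fun x => w u j x * (1 - 2 * A u x)) := by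
      funext v
      simp only [g, Pi.add_apply, Pi.smul_apply, Pi.one_apply, smul_eq_mul, mul_one,
        Matrix.mulVecLin_apply, Matrix.mulVec, dotProduct]
      have h : symmDiff (G.neighborFinset u) (G.neighborFinset v) =
          univ.filter (fun x => ¬ (G.Adj u x ↔ G.Adj v x)) := by
        ext x
        simp only [mem_symmDiff, SimpleGraph.mem_neighborFinset, mem_filter, mem_univ, true_and]
        tauto
      rw [h, Finset.sum_filter, ← Finset.sum_add_distrib]
      refine Finset.sum_congr rfl fun x _ => ?_
      simp only [hA, SimpleGraph.adjMatrix_apply]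
      by_cases hu : G.Adj u x <;> by_cases hv : G.Adj v x <;> simp [hu, hv]
      ring
    rw [e]
    exact U.add_mem (U.smul_mem _ h1) (Submodule.mem_sup_right ⟨_, rfl⟩)
  have hg0 : ∀ u j, g u j u = 0 := by
    intro u j
    simp [g]
  refine (card_le (U ^ s) T pos hpos (fun u => ∏ j : Fin s, (g u j - 1))
    ?_ ?_ ?_).trans ((finrank_pow_le U s (finrank_one_le K V)).trans
      (Nat.pow_le_pow_left hUr s))
  · intro u hu
    have := prod_mem U (fun j : Fin s => g u j - 1) (fun j => U.sub_mem (hgU u j) h1) univ
    rwa [card_univ, Fintype.card_fin] at this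
  · intro u hu
    rw [Finset.prod_apply, Finset.prod_ne_zero_iff]
    intro j _
    simp [hg0]
  · intro u hu v hv huv
    obtain ⟨j, hj⟩ := hw u hu v hv huv
    rw [Finset.prod_apply]
    refine Finset.prod_eq_zero (mem_univ j) ?_
    simp [g, hj]

end Pool.Agent.W729.LR
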