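import Pool.Agent.W729.LR.Few
import Pool.Agent.W290.SG.Rank

set_option autoImplicit false

namespace Pool.Agent.W729.LR

open Finset

/-- `T` is `s`-separated over the field `K` with respect to the order of the vertices given by
`pos`: every vertex `u` of `T` has `s` weight functions `w u j : V → K` (`j < s`) such that for
every vertex `v` of `T` before `u` the symmetric difference of the neighbourhoods `N(u)` and `N(v)`
has total weight exactly `1` for at least one of them. -/
def Separated (K : Type) [Field K] {V : Type} [Fintype V] [DecidableEq V] (G : SimpleGraph V)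
    [DecidableRel G.Adj] (T : Finset V) (pos : V → ℕ) (s : ℕ) : Prop :=
  ∃ w : V → Fin s → V → K, ∀ u ∈ T, ∀ v ∈ T, pos v < pos u → ∃ j : Fin s,
    ∑ x ∈ symmDiff (G.neighborFinset u) (G.neighborFinset v), w u j x = 1

theorem rank_zmod {V : Type} [Fintype V] [DecidableEq V] (G : SimpleGraph V)
    [DecidableRel G.Adj] (p : ℕ) [Fact p.Prime] :
    (G.adjMatrix (ZMod p)).rank ≤ (G.adjMatrix ℝ).rank := by
  have h := Pool.Agent.W290.SG.rank_modp p (G.adjMatrix ℤ)
  have e1 : (G.adjMatrix ℤ).map (Int.cast : ℤ → ZMod p) = G.adjMatrix (ZMod p) := by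
    ext u v
    simp only [Matrix.map_apply, SimpleGraph.adjMatrix_apply]
    split_ifs <;> simp
  have e2 : (G.adjMatrix ℤ).map (Int.cast : ℤ → ℝ) = G.adjMatrix ℝ := by
    ext u v
    simp only [Matrix.map_apply, SimpleGraph.adjMatrix_apply]
    split_ifs <;> simp
  rwa [e1, e2] at h

/-- The main bound. -/
theorem main {V : Type} [Fintype V] [DecidableEq V] (G : SimpleGraph V) [DecidableRel G.Adj]
    {ι : Type} [Fintype ι] [DecidableEq ι] (cl : V → ι) (pos : V → ℕ)
    (hpos : ∀ u v, cl u = cl v → pos u = pos v → u = v) (s : ℕ)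
    (h : ∀ i : ι, Separated ℝ G (univ.filter (fun v => cl v = i)) pos s ∨
      ∃ (p : ℕ) (_ : Fact p.Prime), Separated (ZMod p) G (univ.filter (fun v => cl v = i)) pos s) :
    Fintype.card V ≤ Fintype.card ι * ((G.adjMatrix ℝ).rank + 1) ^ s := by
  classical
  have h1 : ∀ i : ι, (univ.filter (fun v => cl v = i)).card ≤ ((G.adjMatrix ℝ).rank + 1) ^ s := by
    intro i
    have hp : ∀ u ∈ univ.filter (fun v => cl v = i), ∀ v ∈ univ.filter (fun v => cl v = i),
        pos u = pos v → u = v := by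
      intro u hu v hv
      simp only [mem_filter, mem_univ, true_and] at hu hv
      exact hpos u v (hu.trans hv.symm)
    rcases h i with ⟨w, hw⟩ | ⟨p, hpr, w, hw⟩
    · exact class_bound G _ pos hp s w hw
    · exact (class_bound G _ pos hp s w hw).trans
        (Nat.pow_le_pow_left (Nat.succ_le_succ (rank_zmod G p)) s)
  rw [← Finset.card_univ (α := V),
    Finset.card_eq_sum_card_fiberwise (f := cl) (t := univ) (fun _ _ => mem_coe.2 (mem_univ _))]
  refine (Finset.sum_le_sum fun i _ => h1 i).trans ?_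
  rw [Finset.sum_const, smul_eq_mul, Finset.card_univ]

theorem log_chi {V : Type} [Fintype V] (G : SimpleGraph V) (t r s : ℕ)
    (h : Fintype.card V ≤ t * (r + 1) ^ s) :
    Real.log (G.chromaticNumber.toNat : ℝ) ≤ Real.log t + s * Real.log (r + 1) := by
  have h1 : G.chromaticNumber.toNat ≤ Fintype.card V := by
    have h2 : G.chromaticNumber ≤ (Fintype.card V : ℕ) :=
      G.colorable_of_fintype.chromaticNumber_le
    exact ENat.toNat_le_of_le_natCast h2
  have hr : 0 ≤ Real.log ((r : ℝ) + 1) := Real.log_nonneg (by linarith [Nat.cast_nonneg (α := ℝ) r])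
  rcases Nat.eq_zero_or_pos G.chromaticNumber.toNat with h0 | hpos
  · rw [h0, Nat.cast_zero, Real.log_zero]
    have : 0 ≤ Real.log (t : ℝ) := Real.log_natCast_nonneg t
    positivity
  · have ht : t ≠ 0 := by
      rintro rfl
      rw [zero_mul] at h
      omega
    have ht' : (0 : ℝ) < t := by exact_mod_cast Nat.pos_of_ne_zero ht
    have hr' : (0 : ℝ) < (r : ℝ) + 1 := by positivity
    rw [← Real.log_pow, ← Real.log_mul ht'.ne' (pow_pos hr' s).ne']
    apply Real.log_le_log (by exact_mod_cast hpos)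
    have := h1.trans h
    exact_mod_cast this

/-- enumeration of a small finite set of nonzero elements -/
theorem exists_enum {K : Type} [Field K] (D : Finset K) (s : ℕ) (hD : D.card ≤ s) (h0 : (0 : K) ∉ D) :
    ∃ e : Fin s → K, ∀ d ∈ D, ∃ j, e j = d := by
  classical
  refine ⟨fun j => if h : (j : ℕ) < D.card then (D.equivFin.symm ⟨j, h⟩ : K) else 1, ?_⟩
  intro d hd
  have h1 := (D.equivFin ⟨d, hd⟩).2
  refine ⟨⟨D.equivFin ⟨d, hd⟩, h1.trans_le hD⟩, ?_⟩
  simp

/-- few values of the sizes of the symmetric differences, as elements of a field -/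
theorem few_values {K V : Type} [Field K] [Fintype V] [DecidableEq V] (G : SimpleGraph V)
    [DecidableRel G.Adj] (T : Finset V) (pos : V → ℕ) (s : ℕ)
    (h : ∀ u ∈ T, ∃ D : Finset K, D.card ≤ s ∧ (0 : K) ∉ D ∧ ∀ v ∈ T, pos v < pos u →
      ((symmDiff (G.neighborFinset u) (G.neighborFinset v)).card : K) ∈ D) :
    Separated K G T pos s := by
  classical
  have : ∀ u : V, ∃ e : Fin s → K, u ∈ T → ∀ v ∈ T, pos v < pos u →
      ∃ j, e j = ((symmDiff (G.neighborFinset u) (G.neighborFinset v)).card : K) ∧ e j ≠ 0 := by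
    intro u
    by_cases hu : u ∈ T
    · obtain ⟨D, hD, h0, hv⟩ := h u hu
      obtain ⟨e, he⟩ := exists_enum D s hD h0
      refine ⟨e, fun _ v hv1 hv2 => ?_⟩
      obtain ⟨j, hj⟩ := he _ (hv v hv1 hv2)
      refine ⟨j, hj, ?_⟩
      rw [hj]
      intro h1
      apply h0
      rw [← h1]
      exact hv v hv1 hv2
    · exact ⟨fun _ => 0, fun h => absurd h hu⟩
  choose e he using this
  refine ⟨fun u j _ => (e u j)⁻¹, fun u hu v hv huv => ?_⟩
  obtain ⟨j, hj, hj0⟩ := he u hu v hv huv
  refine ⟨j, ?_⟩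
  rw [Finset.sum_const, nsmul_eq_mul, ← hj, mul_inv_cancel₀ hj0]

/-- few sizes of symmetric differences (as natural numbers) -/
theorem few_sizes {V : Type} [Fintype V] [DecidableEq V] (G : SimpleGraph V)
    [DecidableRel G.Adj] (T : Finset V) (pos : V → ℕ) (s : ℕ)
    (h : ∀ u ∈ T, ∃ D : Finset ℕ, D.card ≤ s ∧ 0 ∉ D ∧ ∀ v ∈ T, pos v < pos u →
      (symmDiff (G.neighborFinset u) (G.neighborFinset v)).card ∈ D) :
    Separated ℝ G T pos s := by
  classical
  apply few_values
  intro u hu
  obtain ⟨D, hD, h0, hv⟩ := h u hu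
  refine ⟨D.image (fun n : ℕ => (n : ℝ)), Finset.card_image_le.trans hD, ?_, ?_⟩
  · intro h
    obtain ⟨n, hn, hn0⟩ := Finset.mem_image.1 h
    have : n = 0 := by exact_mod_cast hn0
    exact h0 (this ▸ hn)
  · intro v hv1 hv2
    exact Finset.mem_image_of_mem _ (hv v hv1 hv2)

/-- few residues of the sizes of symmetric differences -/
theorem few_residues {V : Type} [Fintype V] [DecidableEq V] (G : SimpleGraph V)
    [DecidableRel G.Adj] (T : Finset V) (pos : V → ℕ) (s p : ℕ) [Fact p.Prime]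
    (h : ∀ u ∈ T, ∃ D : Finset ℕ, D.card ≤ s ∧ (∀ d ∈ D, ¬ p ∣ d) ∧ ∀ v ∈ T, pos v < pos u →
      ∃ d ∈ D, (symmDiff (G.neighborFinset u) (G.neighborFinset v)).card ≡ d [MOD p]) :
    Separated (ZMod p) G T pos s := by
  classical
  apply few_values
  intro u hu
  obtain ⟨D, hD, h0, hv⟩ := h u hu
  refine ⟨D.image (fun n : ℕ => (n : ZMod p)), Finset.card_image_le.trans hD, ?_, ?_⟩
  · intro h
    obtain ⟨n, hn, hn0⟩ := Finset.mem_image.1 h
    exact h0 n hn ((ZMod.natCast_eq_zero_iff n p).1 hn0)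
  · intro v hv1 hv2
    obtain ⟨d, hd, hd2⟩ := hv v hv1 hv2
    rw [(ZMod.natCast_eq_natCast_iff _ _ _).2 hd2]
    exact Finset.mem_image_of_mem _ hd

/-- teaching sets -/
theorem teaching {V : Type} [Fintype V] [DecidableEq V] (G : SimpleGraph V)
    [DecidableRel G.Adj] (T : Finset V) (pos : V → ℕ) (s : ℕ)
    (h : ∀ u ∈ T, ∃ X : Finset V, X.card ≤ s ∧ ∀ v ∈ T, pos v < pos u →
      ∃ x ∈ X, ¬ (G.Adj u x ↔ G.Adj v x)) :
    Separated ℝ G T pos s := by
  classical
  have : ∀ u : V, ∃ e : Fin s → Option V, u ∈ T → ∀ v ∈ T, pos v < pos u →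
      ∃ j x, e j = some x ∧ ¬ (G.Adj u x ↔ G.Adj v x) := by
    intro u
    by_cases hu : u ∈ T
    · obtain ⟨X, hX, hv⟩ := h u hu
      refine ⟨fun j => if h : (j : ℕ) < X.card then some (X.equivFin.symm ⟨j, h⟩ : V) else none,
        fun _ v hv1 hv2 => ?_⟩
      obtain ⟨x, hx, hx2⟩ := hv v hv1 hv2
      have h1 := (X.equivFin ⟨x, hx⟩).2
      exact ⟨⟨X.equivFin ⟨x, hx⟩, h1.trans_le hX⟩, x, by simp, hx2⟩
    · exact ⟨fun _ => none, fun h => absurd h hu⟩
  choose e he using this
  refine ⟨fun u j x => if e u j = some x then 1 else 0, fun u hu v hv huv => ?_⟩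
  obtain ⟨j, x, hj, hx⟩ := he u hu v hv huv
  refine ⟨j, ?_⟩
  have hmem : x ∈ symmDiff (G.neighborFinset u) (G.neighborFinset v) := by
    simp only [mem_symmDiff, SimpleGraph.mem_neighborFinset]
    tauto
  rw [Finset.sum_eq_single x]
  · simp [hj]
  · intro y _ hy
    show (if e u j = some y then (1 : ℝ) else 0) = 0
    rw [if_neg]
    rw [hj]
    intro h
    exact hy (Option.some.inj h).symm
  · intro h
    exact absurd hmem h

/-- few orbits of the vertex stabilisers -/
theorem orbits {V Γ : Type} [Fintype V] [DecidableEq V] (G : SimpleGraph V)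
    [DecidableRel G.Adj] [Group Γ] [MulAction Γ V]
    (haut : ∀ (γ : Γ) (u v : V), G.Adj (γ • u) (γ • v) ↔ G.Adj u v)
    (htf : ∀ u v : V, u ≠ v → ¬ G.Adj u v → G.neighborFinset u ≠ G.neighborFinset v)
    (pos : V → ℕ) (s : ℕ)
    (hs : ∀ u : V, Nat.card (MulAction.orbitRel.Quotient (MulAction.stabilizer Γ u) V) ≤ s + 1) :
    Separated ℝ G univ pos s := by
  classical
  apply few_sizes
  intro u _
  let f : V → ℕ := fun v => (symmDiff (G.neighborFinset u) (G.neighborFinset v)).card
  have hinv : ∀ (γ : MulAction.stabilizer Γ u) (v : V), f (γ • v) = f v := by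
    intro γ v
    have hγ : (γ : Γ) • u = u := γ.2
    symm
    apply Finset.card_bij (fun x _ => (γ : Γ) • x)
    · intro x hx
      simp only [mem_symmDiff, SimpleGraph.mem_neighborFinset] at hx ⊢
      have e1 : G.Adj u ((γ : Γ) • x) ↔ G.Adj u x := by
        have := haut (γ : Γ) u x
        rwa [hγ] at this
      have e2 : G.Adj (γ • v) ((γ : Γ) • x) ↔ G.Adj v x := haut _ _ _
      rw [e1, e2]
      exact hx
    · intro x _ y _ hxy
      exact MulAction.injective (γ : Γ) hxy
    · intro y hy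
      refine ⟨(γ : Γ)⁻¹ • y, ?_, by simp⟩
      simp only [mem_symmDiff, SimpleGraph.mem_neighborFinset] at hy ⊢
      have e1 : G.Adj u y ↔ G.Adj u ((γ : Γ)⁻¹ • y) := by
        have := haut (γ : Γ) u ((γ : Γ)⁻¹ • y)
        rwa [hγ, smul_inv_smul] at this
      have e2 : G.Adj (γ • v) y ↔ G.Adj v ((γ : Γ)⁻¹ • y) := by
        have := haut (γ : Γ) v ((γ : Γ)⁻¹ • y)
        rwa [smul_inv_smul] at this
      rw [e1, e2] at hy
      exact hy
  have hfac : ∀ a b : V, (MulAction.orbitRel (MulAction.stabilizer Γ u) V) a b → f a = f b := by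
    rintro a b ⟨γ, rfl⟩
    exact hinv γ b
  let F : MulAction.orbitRel.Quotient (MulAction.stabilizer Γ u) V → ℕ := Quotient.lift f hfac
  have : Finite (MulAction.orbitRel.Quotient (MulAction.stabilizer Γ u) V) := Quotient.finite _
  have : Fintype (MulAction.orbitRel.Quotient (MulAction.stabilizer Γ u) V) := Fintype.ofFinite _
  have huu : f u = 0 := by simp [f]
  refine ⟨(univ.image F).erase 0, ?_, Finset.notMem_erase _ _, ?_⟩
  · have h0 : (0 : ℕ) ∈ univ.image F :=
      Finset.mem_image.2 ⟨Quotient.mk _ u, mem_univ _, huu⟩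
    rw [Finset.card_erase_of_mem h0]
    have h1 : (univ.image F).card ≤ s + 1 := by
      refine Finset.card_image_le.trans ?_
      rw [Finset.card_univ, ← Nat.card_eq_fintype_card]
      exact hs u
    omega
  · intro v _ hv
    rw [Finset.mem_erase]
    refine ⟨?_, Finset.mem_image.2 ⟨Quotient.mk _ v, mem_univ _, rfl⟩⟩
    intro h0
    have huv : u ≠ v := by
      rintro rfl
      exact lt_irrefl _ hv
    have h1 : G.neighborFinset u = G.neighborFinset v := by
      have := Finset.card_eq_zero.1 h0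
      exact symmDiff_eq_bot.1 this
    by_cases hadj : G.Adj u v
    · have h2 : v ∈ G.neighborFinset u := by simpa using hadj
      rw [h1] at h2
      simp at h2
    · exact htf u v huv hadj h1

end Pool.Agent.W729.LR
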